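import Pool.Agent.W_MP_80df55_gt.Gen

set_option autoImplicit false

/-!
The remainder of `StoneCech ℕ`.
-/

namespace Pool.Agent.W_MP_80df55_gt

open Set Topology Filter

/-- `StoneCech ℕ` and `Ultrafilter ℕ` are homeomorphic -/
noncomputable def e : StoneCech ℕ ≃ₜ Ultrafilter ℕ where
  toFun := stoneCechExtend (continuous_of_discreteTopology (f := (pure : ℕ → Ultrafilter ℕ)))
  invFun := Ultrafilter.extend (stoneCechUnit : ℕ → StoneCech ℕ)
  left_inv := by
    intro x
    have := stoneCech_hom_ext (α := ℕ)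
      ((continuous_ultrafilter_extend (stoneCechUnit : ℕ → StoneCech ℕ)).comp
        (continuous_stoneCechExtend
          (continuous_of_discreteTopology (f := (pure : ℕ → Ultrafilter ℕ)))))
      continuous_id (by
        funext n
        simp)
    exact congrFun this x
  right_inv := by
    intro x
    have h1 : Continuous ((stoneCechExtend
        (continuous_of_discreteTopology (f := (pure : ℕ → Ultrafilter ℕ)))) ∘
        (Ultrafilter.extend (stoneCechUnit : ℕ → StoneCech ℕ))) :=
      (continuous_stoneCechExtend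
          (continuous_of_discreteTopology (f := (pure : ℕ → Ultrafilter ℕ)))).comp
        (continuous_ultrafilter_extend (stoneCechUnit : ℕ → StoneCech ℕ))
    have := h1.ext_on denseRange_pure continuous_id (by
      rintro _ ⟨n, rfl⟩
      simp)
    exact congrFun this x
  continuous_toFun := continuous_stoneCechExtend _
  continuous_invFun := continuous_ultrafilter_extend _

lemma e_unit (n : ℕ) : e (stoneCechUnit n) = pure n :=
  stoneCechExtend_stoneCechUnit
    (continuous_of_discreteTopology (f := (pure : ℕ → Ultrafilter ℕ))) n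

/-- free ultrafilters -/
abbrev FU : Type := {u : Ultrafilter ℕ // u ∉ range (pure : ℕ → Ultrafilter ℕ)}

/-- the remainder -/
abbrev OS : Type := {x : StoneCech ℕ // x ∉ range (stoneCechUnit : ℕ → StoneCech ℕ)}

lemma iff_range (x : StoneCech ℕ) : x ∉ range (stoneCechUnit : ℕ → StoneCech ℕ) ↔
    e x ∉ range (pure : ℕ → Ultrafilter ℕ) := by
  rw [not_iff_not]
  constructor
  · rintro ⟨n, rfl⟩
    exact ⟨n, (e_unit n).symm⟩
  · rintro ⟨n, hn⟩
    refine ⟨n, ?_⟩
    apply e.injective
    rw [e_unit, hn]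

/-- the homeomorphism -/
noncomputable def e' : OS ≃ₜ FU := e.subtype iff_range

lemma pure_iff (u : Ultrafilter ℕ) (n : ℕ) : u = pure n ↔ {n} ∈ u := by
  constructor
  · rintro rfl
    exact mem_singleton n
  · intro h
    obtain ⟨x, hx, h2⟩ := Ultrafilter.eq_pure_of_finite_mem (finite_singleton n) h
    rw [mem_singleton_iff] at hx
    rw [h2, hx]

lemma isClosed_FU : IsClosed {u : Ultrafilter ℕ | u ∉ range (pure : ℕ → Ultrafilter ℕ)} := by
  have : {u : Ultrafilter ℕ | u ∉ range (pure : ℕ → Ultrafilter ℕ)} =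
      ⋂ n : ℕ, {u : Ultrafilter ℕ | {n}ᶜ ∈ u} := by
    ext u
    simp only [mem_ofPred_eq, mem_iInter, mem_range, not_exists]
    apply forall_congr'
    intro n
    rw [Ultrafilter.compl_mem_iff_notMem, not_iff_not, ← pure_iff, eq_comm]
  rw [this]
  exact isClosed_iInter (fun n => ultrafilter_isClosed_basic _)

instance : CompactSpace FU := isCompact_iff_compactSpace.mp isClosed_FU.isCompact

instance : CompactSpace OS := e'.symm.compactSpace

instance : TotallyDisconnectedSpace OS :=
  e'.symm.totallyDisconnectedSpace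

lemma free_infinite (u : FU) (A : Set ℕ) (hA : A ∈ u.1) : A.Infinite := by
  intro hf
  obtain ⟨x, _, h2⟩ := Ultrafilter.eq_pure_of_finite_mem hf hA
  exact u.2 ⟨x, h2.symm⟩

lemma exists_free (A : Set ℕ) (hA : A.Infinite) : ∃ u : FU, A ∈ u.1 := by
  have hne : (cofinite ⊓ 𝓟 A).NeBot := hA.cofinite_inf_principal_neBot
  refine ⟨⟨Ultrafilter.of (cofinite ⊓ 𝓟 A), ?_⟩, ?_⟩
  · rintro ⟨n, hn⟩
    have h1 : {n}ᶜ ∈ (Ultrafilter.of (cofinite ⊓ 𝓟 A)) := by
      apply Ultrafilter.of_le
      apply mem_inf_of_left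
      rw [mem_cofinite, compl_compl]
      exact finite_singleton n
    rw [← hn] at h1
    have : n ∈ ({n}ᶜ : Set ℕ) := h1
    simp at this
  · apply Ultrafilter.of_le
    exact mem_inf_of_right (mem_principal_self A)

lemma almostP_FU : AlmostP FU := by
  intro p V hV hpV
  have h1 : ∀ n, ∃ A : Set ℕ, A ∈ p.1 ∧ ∀ u : FU, A ∈ u.1 → u ∈ V n := by
    intro n
    obtain ⟨V', hV', hVV⟩ := isOpen_induced_iff.mp (hV n)
    have hp : p.1 ∈ V' := by
      have := hpV n
      rw [← hVV] at this
      exact this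
    obtain ⟨B, ⟨A, rfl⟩, hA, hB⟩ := ultrafilterBasis_is_basis.exists_subset_of_mem_open hp hV'
    refine ⟨A, hA, ?_⟩
    intro u hu
    rw [← hVV]
    exact hB hu
  choose A hA hAV using h1
  -- decreasing sequence
  have hB : ∀ n, (⋂ i ∈ Finset.range (n+1), A i) ∈ p.1 := by
    intro n
    rw [← Ultrafilter.mem_coe, Filter.biInter_finset_mem]
    intro i _
    exact hA i
  have hBinf : ∀ n, (⋂ i ∈ Finset.range (n+1), A i).Infinite := fun n => free_infinite p _ (hB n)
  -- choose an increasing sequence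
  have h2 : ∀ n k : ℕ, ∃ m, k < m ∧ m ∈ ⋂ i ∈ Finset.range (n+1), A i := by
    intro n k
    obtain ⟨m, hm, hkm⟩ := (hBinf n).exists_gt k
    exact ⟨m, hkm, hm⟩
  choose s hs1 hs2 using h2
  let a : ℕ → ℕ := fun n => Nat.rec (s 0 0) (fun n prev => s (n+1) prev) n
  have ha_succ : ∀ n, a (n+1) = s (n+1) (a n) := fun n => rfl
  have ha_mem : ∀ n, a n ∈ ⋂ i ∈ Finset.range (n+1), A i := by
    intro n
    cases n with
    | zero => exact hs2 0 0
    | succ n => rw [ha_succ]; exact hs2 (n+1) (a n)
  have ha_mono : StrictMono a := by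
    apply strictMono_nat_of_lt_succ
    intro n
    rw [ha_succ]
    exact hs1 _ _
  have hinf : (range a).Infinite := infinite_range_of_injective ha_mono.injective
  refine ⟨{u : FU | range a ∈ u.1}, ?_, ?_, ?_⟩
  · exact (ultrafilter_isOpen_basic (range a)).preimage continuous_subtype_val
  · obtain ⟨u, hu⟩ := exists_free (range a) hinf
    exact ⟨u, hu⟩
  · intro n u hu
    apply hAV
    by_contra hc
    have h3 : (A n)ᶜ ∈ u.1 := Ultrafilter.compl_mem_iff_notMem.mpr hc
    have h4 : (range a ∩ (A n)ᶜ) ∈ u.1 := inter_mem hu h3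
    apply free_infinite u _ h4
    apply Set.Finite.subset ((Finset.range n).finite_toSet.image a)
    rintro _ ⟨⟨k, rfl⟩, hk⟩
    refine ⟨k, ?_, rfl⟩
    rw [Finset.mem_coe, Finset.mem_range]
    by_contra hkn
    apply hk
    have := ha_mem k
    rw [mem_iInter₂] at this
    exact this n (Finset.mem_range.mpr (by omega))

lemma almostP_congr {X Y : Type*} [TopologicalSpace X] [TopologicalSpace Y] (f : X ≃ₜ Y)
    (h : AlmostP Y) : AlmostP X := by
  intro p V hV hpV
  obtain ⟨W, hW, ⟨q, hq⟩, hWV⟩ := h (f p) (fun n => f.symm ⁻¹' (V n))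
    (fun n => (hV n).preimage f.symm.continuous)
    (fun n => by simpa using hpV n)
  refine ⟨f ⁻¹' W, hW.preimage f.continuous, ⟨f.symm q, by simpa using hq⟩, ?_⟩
  intro n x hx
  have := hWV n hx
  simpa using this

lemma almostP_OS : AlmostP OS := almostP_congr e' almostP_FU

lemma infinite_FU : Infinite FU := by
  have h : ∀ n : ℕ, (range (fun m : ℕ => Nat.pair n m)).Infinite := by
    intro n
    apply infinite_range_of_injective
    intro a b hab
    simpa using hab
  choose u hu using fun n => exists_free _ (h n)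
  apply Infinite.of_injective u
  intro n m hnm
  by_contra hc
  have h1 := hu n
  have h2 := hu m
  rw [hnm] at h1
  have h3 := inter_mem h1 h2
  have h4 : (range (fun k : ℕ => Nat.pair n k)) ∩ (range (fun k : ℕ => Nat.pair m k)) = ∅ := by
    rw [Set.eq_empty_iff_forall_notMem]
    rintro x ⟨⟨k, hk⟩, ⟨l, hl⟩⟩
    simp only at hk hl
    rw [← hl] at hk
    exact hc (Nat.pair_eq_pair.mp hk).1
  rw [h4] at h3
  exact Ultrafilter.empty_notMem h3

lemma infinite_OS : Infinite OS := by
  have := infinite_FU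
  exact Infinite.of_injective e'.symm e'.symm.injective

theorem main_OS (p : OS) (f : C(OS, OS)) (hf : (range f).Infinite) (Φ : C(OS, OS) ≃ₜ C(OS, OS)) :
    Φ (ContinuousMap.const OS p) ≠ f := by
  obtain ⟨c, hc, hd, hne⟩ := exists_clopen f hf
  exact not_same almostP_OS p f c hc hd hne Φ

end Pool.Agent.W_MP_80df55_gt
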