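import Mathlib

set_option autoImplicit false

/-!
General facts on `C(X, X)` for compact totally disconnected `X`.
-/

namespace Pool.Agent.W_MP_80df55_gt

open Set Topology

variable {X : Type*} [TopologicalSpace X]

/-- every `G_δ` nbhd of every point has nonempty interior -/
def AlmostP (X : Type*) [TopologicalSpace X] : Prop :=
  ∀ (p : X) (V : ℕ → Set X), (∀ n, IsOpen (V n)) → (∀ n, p ∈ V n) →
    ∃ W : Set X, IsOpen W ∧ W.Nonempty ∧ ∀ n, W ⊆ V n

lemma const_side [CompactSpace X] (hX : AlmostP X) (p : X) (U : ℕ → Set C(X, X))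
    (hU : ∀ n, IsOpen (U n)) (hp : ∀ n, ContinuousMap.const X p ∈ U n) :
    (interior (⋂ n, U n)).Nonempty := by
  have h1 : ∀ n, ∃ V : Set X, IsOpen V ∧ p ∈ V ∧ {g : C(X, X) | MapsTo g univ V} ⊆ U n := by
    intro n
    have hb := (nhds_basis_opens p).nhds_continuousMapConst (X := X)
    obtain ⟨⟨K, V⟩, ⟨hK, hpV, hV⟩, hsub⟩ := hb.mem_iff.mp ((hU n).mem_nhds (hp n))
    refine ⟨V, hV, hpV, ?_⟩
    intro g hg
    apply hsub
    intro x _
    exact hg (mem_univ x)
  choose V hV hpV hsub using h1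
  obtain ⟨W, hW, ⟨q, hq⟩, hWV⟩ := hX p V hV hpV
  refine ⟨ContinuousMap.const X q, ?_⟩
  rw [mem_interior]
  refine ⟨{g : C(X, X) | MapsTo g univ W}, ?_, ContinuousMap.isOpen_setOfPred_mapsTo isCompact_univ hW, ?_⟩
  · intro g hg
    rw [mem_iInter]
    intro n
    apply hsub
    intro x hx
    exact hWV n (hg hx)
  · intro x _
    exact hq

lemma homeo_side [CompactSpace X] [T2Space X] [TotallyDisconnectedSpace X]
    (f : C(X, X)) (c : ℕ → Set X) (hc : ∀ n, IsClopen (c n))
    (hd : Pairwise (fun m n => Disjoint (c m) (c n))) (hne : ∀ n, (f ⁻¹' (c n)).Nonempty) :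
    ∃ U : ℕ → Set C(X, X), (∀ n, IsOpen (U n)) ∧ (∀ n, f ∈ U n) ∧
      interior (⋂ n, U n) = ∅ := by
  classical
  refine ⟨fun n => {g : C(X, X) | MapsTo g (f ⁻¹' (c n)) (c n)}, ?_, ?_, ?_⟩
  · intro n
    exact ContinuousMap.isOpen_setOfPred_mapsTo
      (((hc n).1.preimage f.continuous).isCompact) (hc n).2
  · intro n x hx
    exact hx
  · rw [Set.eq_empty_iff_forall_notMem]
    intro g hg
    have hg' : ∀ n, MapsTo g (f ⁻¹' (c n)) (c n) := by
      intro n
      have := interior_subset hg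
      rw [mem_iInter] at this
      exact this n
    rw [mem_interior_iff_mem_nhds, ContinuousMap.mem_nhds_iff] at hg
    obtain ⟨S, hSf, hS, hsub⟩ := hg
    -- clopen sets
    have hD : ∀ s : S, ∃ D : Set X, IsClopen D ∧ g '' s.1.1 ⊆ D ∧ D ⊆ s.1.2 := by
      rintro ⟨⟨K, V⟩, hs⟩
      obtain ⟨hK, hV, hKV⟩ := hS K V hs
      have hK' : IsCompact (g '' K) := hK.image g.continuous
      have hsub' : g '' K ⊆ V := hKV.image_subset
      obtain ⟨D, hD1, hD2, hD3⟩ := exists_clopen_of_closed_subset_open hK'.isClosed hV hsub'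
      exact ⟨D, hD1, hD2, hD3⟩
    choose D hD1 hD2 hD3 using hD
    have : Finite S := hSf.to_subtype
    choose x hx using hne
    -- patterns
    let P : X → (S → Prop) := fun y s => g y ∈ D s
    obtain ⟨n, m, hnm, hP⟩ := Finite.exists_ne_map_eq_of_infinite (fun k => P (x k))
    let E : Set X := {y | ∀ s, (g y ∈ D s ↔ g (x n) ∈ D s)}
    have hE : IsClopen E := by
      have : E = ⋂ s, {y | (g y ∈ D s ↔ g (x n) ∈ D s)} := by
        ext y; simp [E]
      rw [this]
      apply isClopen_iInter_of_finite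
      intro s
      by_cases hs : g (x n) ∈ D s
      · have : {y | (g y ∈ D s ↔ g (x n) ∈ D s)} = g ⁻¹' (D s) := by
          ext y; simp [hs]
        rw [this]
        exact (hD1 s).preimage g.continuous
      · have : {y | (g y ∈ D s ↔ g (x n) ∈ D s)} = (g ⁻¹' (D s))ᶜ := by
          ext y; simp [hs]
        rw [this]
        exact ((hD1 s).preimage g.continuous).compl
    let g' : C(X, X) := ⟨fun y => if y ∈ E then g (x n) else g y, by
      apply Continuous.if
      · intro a ha
        have : frontier {y | y ∈ E} = ∅ := hE.frontier_eq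
        rw [this] at ha
        exact absurd ha (Set.notMem_empty a)
      · exact continuous_const
      · exact g.continuous⟩
    have hg'_def : ∀ y, g' y = if y ∈ E then g (x n) else g y := fun y => rfl
    have h1 : g' ∈ ⋂ k, {g : C(X, X) | MapsTo g (f ⁻¹' (c k)) (c k)} := by
      apply hsub
      intro K V hKV y hy
      have hgy : g y ∈ D ⟨(K, V), hKV⟩ := hD2 ⟨(K, V), hKV⟩ (mem_image_of_mem g hy)
      rw [hg'_def]
      by_cases hyE : y ∈ E
      · rw [if_pos hyE]
        exact hD3 ⟨(K, V), hKV⟩ ((hyE ⟨(K, V), hKV⟩).mp hgy)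
      · rw [if_neg hyE]
        exact hD3 ⟨(K, V), hKV⟩ hgy
    rw [mem_iInter] at h1
    have h2 : g' (x m) ∈ c m := h1 m (hx m)
    have hxm : x m ∈ E := by
      intro s
      have := congrFun hP s
      simp only [P] at this
      rw [this]
    rw [hg'_def, if_pos hxm] at h2
    have h3 : g (x n) ∈ c n := hg' n (hx n)
    exact Set.disjoint_left.mp (hd hnm) h3 h2

/-- a constant map and a map with infinitely many clopen pieces are in different orbits -/
theorem not_same [CompactSpace X] [T2Space X] [TotallyDisconnectedSpace X] (hX : AlmostP X)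
    (p : X) (f : C(X, X)) (c : ℕ → Set X) (hc : ∀ n, IsClopen (c n))
    (hd : Pairwise (fun m n => Disjoint (c m) (c n))) (hne : ∀ n, (f ⁻¹' (c n)).Nonempty)
    (Φ : C(X, X) ≃ₜ C(X, X)) : Φ (ContinuousMap.const X p) ≠ f := by
  intro h
  obtain ⟨U, hU, hfU, hint⟩ := homeo_side f c hc hd hne
  have := const_side hX p (fun n => Φ ⁻¹' (U n)) (fun n => (hU n).preimage Φ.continuous)
    (fun n => by rw [mem_preimage, h]; exact hfU n)
  rw [← preimage_iInter, ← Φ.preimage_interior, hint, preimage_empty] at this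
  exact Set.not_nonempty_empty this

/-- disjoint clopen pieces from an infinite range -/
lemma exists_clopen [CompactSpace X] [T2Space X] [TotallyDisconnectedSpace X] (f : C(X, X))
    (hf : (range f).Infinite) : ∃ c : ℕ → Set X, (∀ n, IsClopen (c n)) ∧
      Pairwise (fun m n => Disjoint (c m) (c n)) ∧ ∀ n, (f ⁻¹' (c n)).Nonempty := by
  have : Infinite (range f) := hf.to_subtype
  obtain ⟨U, hUinf, hUo, hUd⟩ := exists_seq_infinite_isOpen_pairwise_disjoint (range f)
  have h1 : ∀ n, ∃ C : Set X, IsClopen C ∧ (∃ y : X, f y ∈ C) ∧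
      ∀ y : range f, y.1 ∈ C → y ∈ U n := by
    intro n
    obtain ⟨⟨_, y, rfl⟩, hy⟩ := (hUinf n).nonempty
    obtain ⟨V, hV, hVU⟩ := isOpen_induced_iff.mp (hUo n)
    have hyV : f y ∈ V := by
      rw [← hVU] at hy
      exact hy
    obtain ⟨C, hC, hyC, hCV⟩ := compact_exists_isClopen_in_isOpen hV hyV
    refine ⟨C, hC, ⟨y, hyC⟩, ?_⟩
    intro z hz
    rw [← hVU]
    exact hCV hz
  choose C hC y hCU using h1
  choose y hy using y
  refine ⟨disjointed C, ?_, ?_, ?_⟩
  · intro n
    exact disjointedRec (fun t i ht => ht.diff (hC i)) (hC n)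
  · exact disjoint_disjointed C
  · intro n
    refine ⟨y n, ?_⟩
    rw [mem_preimage, disjointed_eq_inter_compl]
    refine ⟨hy n, ?_⟩
    rw [mem_iInter₂]
    intro j hj hc
    have h1 : (⟨f (y n), y n, rfl⟩ : range f) ∈ U n := hCU n _ (hy n)
    have h2 : (⟨f (y n), y n, rfl⟩ : range f) ∈ U j := hCU j _ hc
    exact Set.disjoint_left.mp (hUd hj.ne) h2 h1

end Pool.Agent.W_MP_80df55_gt
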